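import Pool.Agent.Helper28.T3E.StF

/-!
# Project T3E, module TRIE: triangular system of symbols modulo 3, twisted values
-/

set_option autoImplicit false

namespace Pool.Agent.Helper92.T3E

open Pool.Agent.Helper28.T3E
open Pool.Agent.Helper78.W3 Pool.Agent.Helper14.W3 Pool.Agent.Helper14.T3
open Pool.Agent.Helper14.CV (Homog EqC act Tl)

section comm

variable {E : Type} [Ring E]

private theorem lo_TRIE (D Y : E) (h : D * Y = Y * D) (h3 : ∀ x : E, x + x + x = 0) :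
    -(D ^ 3 * Y + D ^ 2 * Y ^ 2 + D * Y ^ 3) = -(D * Y * (D - Y) ^ 2) := by
  have h' : ∀ z, Y * (D * z) = D * (Y * z) := by
    intro z
    rw [← mul_assoc, ← h, mul_assoc]
  have h1 := h3 (D * (D * (Y * Y)))
  rw [neg_inj, ← sub_eq_zero]
  have h2 : D ^ 3 * Y + D ^ 2 * Y ^ 2 + D * Y ^ 3 - D * Y * (D - Y) ^ 2 =
      D * (D * (Y * Y)) + D * (D * (Y * Y)) + D * (D * (Y * Y)) := by
    simp only [pow_succ, pow_zero, one_mul, mul_sub, sub_mul, mul_assoc, ← h, h']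
    abel
  rw [h2, h1]

private theorem reorder_TRIE (D Y : E) (h : D * Y = Y * D) (h3 : ∀ x : E, x + x + x = 0)
    (e j : ℕ) :
    (D * Y) ^ e * (-(D ^ 3 * Y + D ^ 2 * Y ^ 2 + D * Y ^ 3)) ^ j * (D - Y) =
      (-1) ^ j * (D ^ (e + j) * (D - Y) ^ (2 * j + 1) * Y ^ (e + j)) := by
  have hDY : Commute D Y := h
  have hDS : Commute D (D - Y) := (Commute.refl D).sub_right hDY
  have hYS : Commute Y (D - Y) := hDY.symm.sub_right (Commute.refl Y)
  have hQS : Commute (D * Y) (D - Y) := hDS.mul_left hYS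
  rw [lo_TRIE D Y h h3, neg_pow, (hQS.pow_right 2).mul_pow, ← pow_mul]
  have h1 : (D * Y) ^ e * (-1 : E) ^ j = (-1) ^ j * (D * Y) ^ e :=
    ((Commute.neg_one_right ((D * Y) ^ e)).pow_right j).eq
  have h5 : Y ^ (e + j) * (D - Y) ^ (2 * j + 1) = (D - Y) ^ (2 * j + 1) * Y ^ (e + j) :=
    (hYS.pow_pow _ _).eq
  calc (D * Y) ^ e * ((-1) ^ j * ((D * Y) ^ j * (D - Y) ^ (2 * j))) * (D - Y)
      = ((D * Y) ^ e * (-1) ^ j) * (D * Y) ^ j * ((D - Y) ^ (2 * j) * (D - Y)) := by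
        simp only [mul_assoc]
    _ = (-1) ^ j * (((D * Y) ^ e * (D * Y) ^ j) * ((D - Y) ^ (2 * j) * (D - Y))) := by
        rw [h1]
        simp only [mul_assoc]
    _ = (-1) ^ j * (D ^ (e + j) * (Y ^ (e + j) * (D - Y) ^ (2 * j + 1))) := by
        rw [← pow_add, ← pow_succ, hDY.mul_pow, mul_assoc]
    _ = (-1) ^ j * (D ^ (e + j) * (D - Y) ^ (2 * j + 1) * Y ^ (e + j)) := by
        rw [h5]
        simp only [mul_assoc]

private theorem comm_TRIE (D Y : E) (h : D * Y = Y * D) (e j : ℕ) :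
    (D - Y) * (D * Y) ^ e * (-(D ^ 3 * Y + D ^ 2 * Y ^ 2 + D * Y ^ 3)) ^ j =
      (D * Y) ^ e * (-(D ^ 3 * Y + D ^ 2 * Y ^ 2 + D * Y ^ 3)) ^ j * (D - Y) := by
  have hDY : Commute D Y := h
  have hDS : Commute (D - Y) D := ((Commute.refl D).sub_right hDY).symm
  have hYS : Commute (D - Y) Y := (hDY.symm.sub_right (Commute.refl Y)).symm
  have hQ : Commute (D - Y) ((D * Y) ^ e) := (hDS.mul_right hYS).pow_right e
  have hL : Commute (D - Y) ((-(D ^ 3 * Y + D ^ 2 * Y ^ 2 + D * Y ^ 3)) ^ j) := by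
    refine Commute.pow_right (Commute.neg_right ?_) j
    exact (((hDS.pow_right 3).mul_right hYS).add_right
      ((hDS.pow_right 2).mul_right (hYS.pow_right 2))).add_right
      (hDS.mul_right (hYS.pow_right 3))
  exact (hQ.mul_right hL).eq.symm ▸ (by rw [← mul_assoc])

end comm

section main

variable {r s : ℕ}

private theorem dy_pow_TRIE (hBb : S3Bb) (p q m : ℕ) (hp : p < 3 ^ r) (hq : m + q < 3 ^ s) :
    (dY ^ m : Module.End (ZMod 3) (Fn3 (3 ^ r) (3 ^ s))) (bb3 p (m + q)) = bb3 p q := by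
  induction m with
  | zero =>
    rw [pow_zero, zero_add]
    rfl
  | succ m ih =>
    have h1 : m + 1 + q = (m + q) + 1 := by ring
    rw [pow_succ, Module.End.mul_apply, h1,
      (hBb r s).2.2.1 p (m + q) hp (by omega)]
    exact ih (by omega)

private theorem dx_pow_TRIE (hBb : S3Bb) (p q m : ℕ) (hq : q < 3 ^ s) (hp : m + p < 3 ^ r) :
    (dX ^ m : Module.End (ZMod 3) (Fn3 (3 ^ r) (3 ^ s))) (bb3 (m + p) q) = bb3 p q := by
  induction m with
  | zero =>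
    rw [pow_zero, zero_add]
    rfl
  | succ m ih =>
    have h1 : m + 1 + p = (m + p) + 1 := by ring
    rw [pow_succ, Module.End.mul_apply, h1,
      (hBb r s).2.1 (m + p) q (by omega) hq]
    exact ih (by omega)

private theorem dy_kill_TRIE (hBb : S3Bb) (p q m : ℕ) (hp : p < 3 ^ r) (hq : q < 3 ^ s)
    (h : q < m) :
    (dY ^ m : Module.End (ZMod 3) (Fn3 (3 ^ r) (3 ^ s))) (bb3 p q) = 0 := by
  obtain ⟨c, rfl⟩ : ∃ c, m = c + (1 + q) := ⟨m - (1 + q), by omega⟩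
  rw [pow_add, pow_add, Module.End.mul_apply, Module.End.mul_apply]
  have h1 := dy_pow_TRIE (r := r) (s := s) hBb p 0 q hp (by omega)
  rw [add_zero] at h1
  rw [h1, pow_one, (hBb r s).2.2.2.2.1 p hp, map_zero]

private theorem sum_pow_TRIE (hBb : S3Bb) (p m : ℕ) (hp : m + p < 3 ^ r) (hs : 0 < 3 ^ s) :
    ((dX - dY) ^ m : Module.End (ZMod 3) (Fn3 (3 ^ r) (3 ^ s))) (bb3 (m + p) 0) = bb3 p 0 := by
  induction m with
  | zero =>
    rw [pow_zero, zero_add]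
    rfl
  | succ m ih =>
    have h1 : m + 1 + p = (m + p) + 1 := by ring
    rw [pow_succ, Module.End.mul_apply, h1, LinearMap.sub_apply,
      (hBb r s).2.1 (m + p) 0 (by omega) hs,
      (hBb r s).2.2.2.2.1 (m + p + 1) (by omega), sub_zero]
    exact ih (by omega)

private theorem low_pow_TRIE (hLow0 : S3Low0) (O : Module.End (ZMod 3) (Fn3 (3 ^ r) (3 ^ s)))
    (k : ℤ) (h : Lw O k) (i : ℕ) : Lw (O ^ i) ((i : ℤ) * k) := by
  induction i with
  | zero =>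
    rw [pow_zero, Nat.cast_zero, zero_mul]
    exact (hLow0 r s).2.2.2.2.2.1
  | succ i ih =>
    have h1 : ((i + 1 : ℕ) : ℤ) * k = (i : ℤ) * k + k := by
      push_cast
      ring
    rw [pow_succ, h1]
    exact (hLow0 r s).1 _ _ _ _ ih h

private theorem three_TRIE (x : Module.End (ZMod 3) (Fn3 (3 ^ r) (3 ^ s))) : x + x + x = 0 := by
  have h : (1 : ZMod 3) + 1 + 1 = 0 := by decide
  have h2 : ((1 : ZMod 3) + 1 + 1) • x = x + x + x := by
    rw [add_smul, add_smul, one_smul]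
  rw [← h2, h, zero_smul]

private theorem neg_TRIE (x : Module.End (ZMod 3) (Fn3 (3 ^ r) (3 ^ s))) :
    (-1 : ZMod 3) • x = -x := by
  have h := neg_smul (1 : ZMod 3) x
  rw [one_smul] at h
  exact h

private theorem low_Qo_TRIE (hLow0 : S3Low0) :
    Lw (Qo : Module.End (ZMod 3) (Fn3 (3 ^ r) (3 ^ s))) 2 :=
  (hLow0 r s).1 _ _ _ _ (hLow0 r s).2.2.2.2.2.2.1 (hLow0 r s).2.2.2.2.2.2.2.1

private theorem low_S_TRIE (hLow0 : S3Low0) :
    Lw (dX - dY : Module.End (ZMod 3) (Fn3 (3 ^ r) (3 ^ s))) 1 := by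
  have hx := (hLow0 r s).2.2.2.2.2.2.1
  have hy := (hLow0 r s).2.2.1 _ (-1) _ (hLow0 r s).2.2.2.2.2.2.2.1
  have h1 := (hLow0 r s).2.1 _ _ _ hx hy
  have h2 : (dX - dY : Module.End (ZMod 3) (Fn3 (3 ^ r) (3 ^ s))) = dX + (-1 : ZMod 3) • dY := by
    rw [neg_TRIE, sub_eq_add_neg]
  rw [h2]
  exact h1

private theorem low_Lo_TRIE (hLow0 : S3Low0) :
    Lw (Lo : Module.End (ZMod 3) (Fn3 (3 ^ r) (3 ^ s))) 4 := by
  have h1 : (Lo : Module.End (ZMod 3) (Fn3 (3 ^ r) (3 ^ s))) =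
      (-1 : ZMod 3) • (dX * dY * (dX - dY) ^ 2) := by
    rw [neg_TRIE]
    exact lo_TRIE _ _ (hLow0 r s).2.2.2.2.2.2.2.2.1 three_TRIE
  have h2 := (hLow0 r s).1 _ _ _ _ (low_Qo_TRIE hLow0)
    (low_pow_TRIE hLow0 _ _ (low_S_TRIE (r := r) (s := s) hLow0) 2)
  have h3 : (2 : ℤ) + ((2 : ℕ) : ℤ) * 1 = 4 := by norm_num
  rw [h3] at h2
  rw [h1]
  exact (hLow0 r s).2.2.1 _ _ _ h2

private theorem low_all_TRIE (hLow0 : S3Low0) (e j : ℕ) :
    Lw (Qo ^ e * Lo ^ j : Module.End (ZMod 3) (Fn3 (3 ^ r) (3 ^ s)))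
      ((e : ℤ) * 2 + (j : ℤ) * 4) :=
  (hLow0 r s).1 _ _ _ _ (low_pow_TRIE hLow0 _ _ (low_Qo_TRIE hLow0) e)
    (low_pow_TRIE hLow0 _ _ (low_Lo_TRIE hLow0) j)

private theorem low_alls_TRIE (hLow0 : S3Low0) (e j : ℕ) :
    Lw (Qo ^ e * Lo ^ j * (dX - dY) : Module.End (ZMod 3) (Fn3 (3 ^ r) (3 ^ s)))
      ((e : ℤ) * 2 + (j : ℤ) * 4 + 1) :=
  (hLow0 r s).1 _ _ _ _ (low_all_TRIE hLow0 e j) (low_S_TRIE hLow0)

private theorem form_TRIE (hLow0 : S3Low0) (e j : ℕ) :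
    (Qo ^ e * Lo ^ j * (dX - dY) : Module.End (ZMod 3) (Fn3 (3 ^ r) (3 ^ s))) =
      (-1) ^ j * (dX ^ (e + j) * (dX - dY) ^ (2 * j + 1) * dY ^ (e + j)) :=
  reorder_TRIE _ _ (hLow0 r s).2.2.2.2.2.2.2.2.1 three_TRIE e j

private theorem form2_TRIE (hLow0 : S3Low0) (e j : ℕ) :
    ((dX - dY) * Qo ^ e * Lo ^ j : Module.End (ZMod 3) (Fn3 (3 ^ r) (3 ^ s))) =
      Qo ^ e * Lo ^ j * (dX - dY) :=
  comm_TRIE _ _ (hLow0 r s).2.2.2.2.2.2.2.2.1 e j

private theorem kill_TRIE (hLow0 : S3Low0) (hBb : S3Bb) (e j al be : ℕ) (hal : al < 3 ^ r)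
    (hbe : be < 3 ^ s) (h : be < e + j) :
    (Qo ^ e * Lo ^ j * (dX - dY) : Module.End (ZMod 3) (Fn3 (3 ^ r) (3 ^ s))) (bb3 al be) = 0 := by
  rw [form_TRIE hLow0, Module.End.mul_apply, Module.End.mul_apply,
    dy_kill_TRIE hBb al be (e + j) hal hbe h, map_zero, map_zero]

private theorem val_TRIE (hLow0 : S3Low0) (hBb : S3Bb) (e j : ℕ) (hal : e + 3 * j + 1 < 3 ^ r)
    (hbe : e + j < 3 ^ s) :
    ((Qo ^ e * Lo ^ j * (dX - dY) : Module.End (ZMod 3) (Fn3 (3 ^ r) (3 ^ s)))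
      (bb3 (e + 3 * j + 1) (e + j))) 0 0 ≠ 0 := by
  have hs0 : 0 < 3 ^ s := by positivity
  have h1 := dy_pow_TRIE (r := r) (s := s) hBb (e + 3 * j + 1) 0 (e + j) hal (by omega)
  rw [add_zero] at h1
  have h2 := sum_pow_TRIE (r := r) (s := s) hBb (e + j) (2 * j + 1) (by omega) hs0
  have h2' : 2 * j + 1 + (e + j) = e + 3 * j + 1 := by ring
  rw [h2'] at h2
  have h3 := dx_pow_TRIE (r := r) (s := s) hBb 0 0 (e + j) hs0 (by omega)
  rw [add_zero] at h3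
  have h4 : ((bb3 0 0 : Fn3 (3 ^ r) (3 ^ s)) 0 0) = 1 := by simp [bb3]
  have h5 : (Qo ^ e * Lo ^ j * (dX - dY) : Module.End (ZMod 3) (Fn3 (3 ^ r) (3 ^ s)))
      (bb3 (e + 3 * j + 1) (e + j)) =
      ((-1) ^ j : Module.End (ZMod 3) (Fn3 (3 ^ r) (3 ^ s))) (bb3 0 0) := by
    rw [form_TRIE hLow0, Module.End.mul_apply, Module.End.mul_apply, Module.End.mul_apply,
      h1, h2, h3]
  rw [h5]
  have h6 : (1 : ZMod 3) ≠ 0 := by decide
  have h7 : (-1 : ZMod 3) ≠ 0 := by decide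
  rcases neg_one_pow_eq_or (Module.End (ZMod 3) (Fn3 (3 ^ r) (3 ^ s))) j with h | h
  · rw [h, Module.End.one_apply, h4]
    exact h6
  · rw [h, LinearMap.neg_apply, Module.End.one_apply, Pi.neg_apply, Pi.neg_apply, h4]
    exact h7

/-- The value at the origin only depends on the leading form. -/
private theorem lead_TRIE (hLow0 : S3Low0) (O : Module.End (ZMod 3) (Fn3 (3 ^ r) (3 ^ s)))
    (k : ℤ) (hO : Lw O k) (F L : Fn3 (3 ^ r) (3 ^ s)) (h : F - L ∈ Wd3 (k - 1)) :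
    O F = O L := by
  have h1 := hO _ _ h
  have h2 : k - 1 - k = -1 := by ring
  rw [h2] at h1
  have h3 := (hLow0 r s).2.2.2.2.2.2.2.2.2.2.2.2.2 _ h1
  rw [map_sub] at h3
  exact sub_eq_zero.1 h3

end main

/-- TRIE. -/
theorem hTRIE : StTRIE := by
  intro hIT hLow0 hBb hLed hEx D r s i j hD hr1 hs1
  obtain ⟨e, he⟩ : ∃ e, e = i / 2 + 1 := ⟨_, rfl⟩
  rw [← he]
  intro hr hs
  have hS : (SE D : ZMod 3) ≠ 0 := by
    intro h
    exact hD.2.2.2 ((ZMod.intCast_zmod_eq_zero_iff_dvd (SE D) 3).1 h)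
  have hu : ((-1) ^ (r + 1) * (SE D : ZMod 3) ^ 2 : ZMod 3) ≠ 0 := by
    have h7 : (-1 : ZMod 3) ≠ 0 := by decide
    have : Fact (Nat.Prime 3) := ⟨Nat.prime_three⟩
    exact mul_ne_zero (pow_ne_zero _ h7) (pow_ne_zero _ hS)
  have hmz : ∀ x y : ZMod 3, x ≠ 0 → y ≠ 0 → x * y ≠ 0 := by decide
  obtain ⟨hP, hH⟩ := hLed r s (e + 3 * j + 1) (e + j) hr hs
  rcases Nat.mod_two_eq_zero_or_one i with hi | hi
  · -- the even case
    obtain ⟨F, hRel, hF, hlead⟩ := hP (by omega)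
    obtain ⟨G, hG, hGF⟩ := hEx (ZMod 3) inferInstance r s F hRel
    have hd : ((e + 3 * j + 1 : ℕ) : ℤ) + ((e + j : ℕ) : ℤ) - 1 = ((i + 2 + 4 * j : ℕ) : ℤ) := by
      push_cast
      omega
    have hd2 : ((e + 3 * j + 1 : ℕ) : ℤ) + ((e + j : ℕ) : ℤ) - 2 =
        ((i + 2 + 4 * j : ℕ) : ℤ) - 1 := by
      push_cast
      omega
    rw [hd] at hF
    rw [hd2] at hlead
    have hI := hIT D r s G (i + 2 + 4 * j) hD hr1 hs1 hG (fun f => by rw [hGF f]; exact hF f)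
    have hval : ∀ i' j' : ℕ, i' + 4 * j' = i + 4 * j → evTb D (3 ^ (r + 1)) G i' j' =
        ((-1) ^ (r + 1) * (SE D : ZMod 3) ^ 2) *
        ((Qo ^ (i' / 2 + 1) * Lo ^ j' * (dX - dY) : Module.End (ZMod 3) (Fn3 (3 ^ r) (3 ^ s)))
          (bb3 (e + 3 * j + 1) (e + j))) 0 0 := by
      intro i' j' hij
      rw [(hI i' j').2.1 (by omega) (by omega), hGF 0]
      have h1 : (((i' / 2 + 1 : ℕ) : ℤ) * 2 + (j' : ℤ) * 4) = ((i + 2 + 4 * j : ℕ) : ℤ) := by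
        push_cast
        omega
      have h2 := low_all_TRIE (r := r) (s := s) hLow0 (i' / 2 + 1) j'
      rw [h1] at h2
      rw [lead_TRIE hLow0 _ _ h2 _ _ hlead, Module.End.mul_apply _ (dX - dY), LinearMap.sub_apply]
    refine ⟨G, hG, ?_, ?_⟩
    · rw [hval i j rfl, ← he]
      exact hmz _ _ hu (val_TRIE hLow0 hBb e j hr hs)
    · intro i' j' hne
      rcases lt_trichotomy (i' + 4 * j') (i + 4 * j) with h | h | h
      · exact Or.inl h
      · right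
        refine ⟨h, ?_⟩
        by_contra hcon
        apply hne
        rw [hval i' j' h, kill_TRIE hLow0 hBb _ _ _ _ hr hs (by omega)]
        exact mul_zero _
      · exact absurd ((hI i' j').1 (by omega)) hne
  · -- the odd case
    obtain ⟨F, hRel, hF, -, hlead⟩ := hH
    obtain ⟨G, hG, hGF⟩ := hEx (ZMod 3) inferInstance r s F hRel
    have hd : ((e + 3 * j + 1 : ℕ) : ℤ) + ((e + j : ℕ) : ℤ) = ((i + 2 + 4 * j : ℕ) : ℤ) := by
      push_cast
      omega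
    rw [hd] at hF hlead
    have hI := hIT D r s G (i + 2 + 4 * j) hD hr1 hs1 hG (fun f => by rw [hGF f]; exact hF f)
    have hval : ∀ i' j' : ℕ, i' + 4 * j' = i + 4 * j → evTb D (3 ^ (r + 1)) G i' j' =
        -(((-1) ^ (r + 1) * (SE D : ZMod 3) ^ 2) *
        ((Qo ^ (i' / 2 + 1) * Lo ^ j' * (dX - dY) : Module.End (ZMod 3) (Fn3 (3 ^ r) (3 ^ s)))
          (bb3 (e + 3 * j + 1) (e + j))) 0 0) := by
      intro i' j' hij
      rw [(hI i' j').2.2 (by omega) (by omega), hGF 1, hGF 2, form2_TRIE hLow0]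
      have h1 : (((i' / 2 + 1 : ℕ) : ℤ) * 2 + (j' : ℤ) * 4 + 1) = ((i + 2 + 4 * j : ℕ) : ℤ) := by
        push_cast
        omega
      have h2 := low_alls_TRIE (r := r) (s := s) hLow0 (i' / 2 + 1) j'
      rw [h1] at h2
      rw [lead_TRIE hLow0 _ _ h2 _ _ hlead]
    refine ⟨G, hG, ?_, ?_⟩
    · rw [hval i j rfl, ← he]
      exact neg_ne_zero.2 (hmz _ _ hu (val_TRIE hLow0 hBb e j hr hs))
    · intro i' j' hne
      rcases lt_trichotomy (i' + 4 * j') (i + 4 * j) with h | h | h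
      · exact Or.inl h
      · right
        refine ⟨h, ?_⟩
        by_contra hcon
        apply hne
        rw [hval i' j' h, kill_TRIE hLow0 hBb _ _ _ _ hr hs (by omega)]
        have h0 : ((0 : Fn3 (3 ^ r) (3 ^ s)) 0 0) = 0 := rfl
        rw [h0, mul_zero, neg_zero]
      · exact absurd ((hI i' j').1 (by omega)) hne

end Pool.Agent.Helper92.T3E
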